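import Pool.Agent.H885R3.GrpStratB

/-!
Every analytic Menger-bounded topological group is Hurewicz-bounded.
-/

set_option autoImplicit false

open Set Filter Topology Pointwise

namespace Pool.Agent.Results.MP_913206_gt.MengerHurewicz

universe u

/-- `O`: the (nontrivial) open covers of `X`. -/
def Covers (X : Type u) [TopologicalSpace X] : Set (Set (Set X)) :=
  {W | (∀ V ∈ W, IsOpen V) ∧ (∀ x : X, ∃ V ∈ W, x ∈ V) ∧ univ ∉ W}

/-- `Γ`: the open γ-covers of `X`. -/
def GammaCovers (X : Type u) [TopologicalSpace X] : Set (Set (Set X)) :=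
  {W | W ∈ Covers X ∧ W.Infinite ∧ ∀ x : X, {V | V ∈ W ∧ x ∉ V}.Finite}

/-- `O_nbd`: the covers `{g • U : g ∈ G}`, for `U` an open neighbourhood of the identity
(the cover being nontrivial, i.e. `U ≠ G`). -/
def NbdCovers (G : Type u) [Group G] [TopologicalSpace G] : Set (Set (Set G)) :=
  {W | W ∈ Covers G ∧ ∃ U : Set G, IsOpen U ∧ (1 : G) ∈ U ∧ W = {V | ∃ g : G, V = g • U}}

/-- `Ω_nbd`: the covers `{F * U : F ⊆ G finite}`, for `U` an open neighbourhood of the identity
such that `F * U ≠ G` for every finite `F`. -/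
def OmegaNbdCovers (G : Type u) [Group G] [TopologicalSpace G] : Set (Set (Set G)) :=
  {W | ∃ U : Set G, IsOpen U ∧ (1 : G) ∈ U ∧ (∀ F : Set G, F.Finite → F * U ≠ univ) ∧
    W = {V | ∃ F : Set G, F.Finite ∧ V = F * U}}

/-- The selection principle `S_1(A, B)`. -/
def S1 {X : Type u} (A B : Set (Set (Set X))) : Prop :=
  ∀ W : ℕ → Set (Set X), (∀ n, W n ∈ A) → ∃ V : ℕ → Set X, (∀ n, V n ∈ W n) ∧ range V ∈ B

/-- The selection principle `S_fin(A, B)`. -/
def Sfin {X : Type u} (A B : Set (Set (Set X))) : Prop :=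
  ∀ W : ℕ → Set (Set X), (∀ n, W n ∈ A) →
    ∃ F : ℕ → Set (Set X), (∀ n, (F n).Finite ∧ F n ⊆ W n) ∧ (⋃ n, F n) ∈ B

/-- Every analytic topological group which is Menger-bounded is Hurewicz-bounded. -/
theorem result : ∀ (G : Type u) [Group G] [TopologicalSpace G] [IsTopologicalGroup G]
    [TopologicalSpace.MetrizableSpace G] [TopologicalSpace.SeparableSpace G],
    MeasureTheory.AnalyticSet (univ : Set G) →
    Sfin (NbdCovers G) (Covers G) → S1 (OmegaNbdCovers G) (GammaCovers G) := by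
  classical
  intro G _ _ _ _ _ hG hM
  obtain ⟨U, hU⟩ := Pool.Agent.H885R3.exists_base (G := G)
  rw [MeasureTheory.AnalyticSet] at hG
  rcases hG with hG | ⟨f, hf, hfr⟩
  · exact absurd hG (Set.univ_nonempty (α := G)).ne_empty
  have hsurj : Function.Surjective f := range_eq_univ.1 hfr
  have hM' : ∀ V : ℕ → Set G, (∀ n, IsOpen (V n) ∧ (1 : G) ∈ V n) →
      ∃ F : ℕ → Finset G, ∀ g, ∃ n, ∃ q ∈ F n, q⁻¹ * g ∈ V n := by
    intro V hV
    by_cases htriv : ∃ n, V n = univ
    · obtain ⟨n, hn⟩ := htriv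
      exact ⟨fun _ => {1}, fun g => ⟨n, 1, by simp, by rw [hn]; exact mem_univ _⟩⟩
    push Not at htriv
    obtain ⟨F, hF, hFc⟩ := hM (fun n => {W | ∃ g : G, W = g • V n}) (by
      intro n
      refine ⟨⟨?_, ?_, ?_⟩, V n, (hV n).1, (hV n).2, rfl⟩
      · rintro _ ⟨g, rfl⟩
        exact (hV n).1.smul g
      · intro x
        refine ⟨x • V n, ⟨x, rfl⟩, ?_⟩
        exact ⟨1, (hV n).2, by simp⟩
      · rintro ⟨g, hg⟩
        refine htriv n ?_
        rw [eq_univ_iff_forall]
        intro x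
        have : g * x ∈ g • V n := by rw [← hg]; exact mem_univ _
        rw [← smul_eq_mul, smul_mem_smul_set_iff] at this
        exact this)
    have hch : ∀ n, ∀ W ∈ F n, ∃ g : G, W = g • V n := fun n W hW => (hF n).2 hW
    choose! q hq using hch
    refine ⟨fun n => (hF n).1.toFinset.image (q n), fun g => ?_⟩
    obtain ⟨W, hW, hgW⟩ := hFc.2.1 g
    obtain ⟨n, hn⟩ := mem_iUnion.1 hW
    refine ⟨n, q n W, Finset.mem_image_of_mem _ ((hF n).1.mem_toFinset.2 hn), ?_⟩
    rw [hq n W hn, mem_smul_set_iff_inv_smul_mem, smul_eq_mul] at hgW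
    exact hgW
  have hHB := Pool.Agent.H885R3.hb_of_menger hU hf hsurj hM'
  intro W hW
  choose O hO h1 hO' hWO using hW
  choose v hv using fun n => hU.small (O n) ((hO n).mem_nhds (h1 n))
  obtain ⟨F, hF⟩ := hHB v
  have hmem : ∀ x : G, ∀ᶠ n in atTop, x ∈ (F n : Set G) * O n := by
    intro x
    filter_upwards [hF x (mem_univ x)] with n hn
    obtain ⟨q, hq, hqx⟩ := hn
    exact Set.mem_mul.2 ⟨q, hq, q⁻¹ * x, hv n hqx, by simp⟩
  have hne : ∀ n, (F n : Set G) * O n ≠ univ := fun n => hO' n _ (F n).finite_toSet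
  refine ⟨fun n => (F n : Set G) * O n, fun n => ?_, ⟨?_, ?_, ?_⟩, ?_, ?_⟩
  · rw [hWO n]
    exact ⟨F n, (F n).finite_toSet, rfl⟩
  · rintro _ ⟨n, rfl⟩
    exact (hO n).mul_left
  · intro x
    obtain ⟨n, hn⟩ := (hmem x).exists
    exact ⟨_, ⟨n, rfl⟩, hn⟩
  · rintro ⟨n, hn⟩
    exact hne n hn
  · intro hfin
    have : ∃ V ∈ range (fun n => (F n : Set G) * O n),
        {n | (F n : Set G) * O n = V}.Infinite := by
      by_contra hcon
      push Not at hcon
      have hu : (univ : Set ℕ) ⊆ ⋃ V ∈ range (fun n => (F n : Set G) * O n),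
          {n | (F n : Set G) * O n = V} := fun n _ =>
        mem_biUnion (mem_range_self n) rfl
      exact infinite_univ ((hfin.biUnion hcon).subset hu)
    obtain ⟨V, ⟨m, hm⟩, hV⟩ := this
    refine hne m ?_
    rw [eq_univ_iff_forall]
    intro x
    have hx := hmem x
    rw [← Nat.cofinite_eq_atTop, eventually_cofinite] at hx
    obtain ⟨n, hn, hn'⟩ := hV.exists_notMem_finite hx
    have hn2 : x ∈ (F n : Set G) * O n := by
      by_contra hc
      exact hn' hc
    have e : (F n : Set G) * O n = V := hn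
    have e2 : (F m : Set G) * O m = V := hm
    rw [e2, ← e]
    exact hn2
  · intro x
    have hx := hmem x
    rw [← Nat.cofinite_eq_atTop, eventually_cofinite] at hx
    refine (hx.image (fun n => (F n : Set G) * O n)).subset ?_
    rintro _ ⟨⟨n, rfl⟩, hn⟩
    exact ⟨n, hn, rfl⟩

end Pool.Agent.Results.MP_913206_gt.MengerHurewicz
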